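import Pool.Agent.SPI.All

set_option autoImplicit false

/-!
# The critical norm conjecture for the defocusing wave equation in dimensions four and five

`u_tt - Δu + |u|^{p-1} u = 0` on `I × ℝ^d`, real valued, no symmetry assumed; `d = 4`, `p > 5` or `d = 5`, `p > 3`
(that is, `d ∈ {4, 5}` and `p > 1 + 4/(d-3)`). The critical regularity is `s_c = d/2 - 2/(p-1)`.

The definitions are those of the problem file: `Pool/Agent/QWL/Defs.lean` (for every `d` and `p`: the critical norm `HN`, the free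
propagator `S(t)` (`IsS`), scattering (`Scatters`)) and, at the end of `Pool/Agent/SPI/Defs.lean`, strong solutions by Duhamel's
formula (`IsSolnS`) and maximal lifespan (`IsMaxSolnS`) with the Strichartz space `L^q_t L^r_x`. The theorem covers every scale
invariant pair `(q,r)`, `1/q + d/r = 2/(p-1)`, with `p-1 ≤ q ≤ (d+1)(p-1)/2`; the two ends are `L^{p-1}_t L^{d(p-1)}_x` and the
diagonal space `L^{(d+1)(p-1)/2}_{t,x}`. (All these classes of solutions coincide: `Pool.Agent.SPI.Asm.eqv`.)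
-/

open MeasureTheory Filter Topology Set
open scoped ENNReal NNReal

namespace Pool.Agent.Results.MP_9ce95b_an.CriticalNorm

open Pool.Agent.QWL (X HN Scatters)
open Pool.Agent.SPI (IsMaxSolnS)

/-- **Theorem.** Let `d = 4`, `p > 5` or `d = 5`, `p > 3`, and let `p-1 ≤ q ≤ (d+1)(p-1)/2`, `1/q + d/r = 2/(p-1)`. Every
maximal-lifespan solution `u : I × ℝ^d → ℝ` of `u_tt - Δu + |u|^{p-1} u = 0` (Strichartz space `L^q_t L^r_x`) with bounded
critical norm `‖(u, u_t)(t)‖_{Ḣ^{s_c} × Ḣ^{s_c-1}}` is global and scatters as `t → +∞` and as `t → -∞`. -/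
theorem result (d : ℕ) (p q r : ℝ) (hdp : (d = 4 ∧ 5 < p) ∨ (d = 5 ∧ 3 < p))
    (hq : p - 1 ≤ q) (hq' : q ≤ ((d : ℝ) + 1) * (p - 1) / 2) (hqr : 1 / q + (d : ℝ) / r = 2 / (p - 1))
    (I : Set ℝ) (u v : ℝ → X d → ℝ) (hu : IsMaxSolnS p q r I u v)
    (hA : ∃ A : ℝ≥0, ∀ t ∈ I, HN p (u t) (v t) ≤ A) :
    I = univ ∧ Scatters p u v atTop ∧ Scatters p u v atBot :=
  Pool.Agent.SPI.Asm.final d p q r hdp ⟨hq, hq', hqr⟩ I u v hu hA

end Pool.Agent.Results.MP_9ce95b_an.CriticalNorm
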